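import Pool.Agent.Y718.CL.Stm
import Pool.Agent.Y720.WA.Dbl

/-!
# Project CL: the doubling sequence at a generic pole, with common factors

Adapted from `itd_finite` of `Pool/Agent/Y720/WA/Dbl.lean`.
-/

set_option autoImplicit false

open Pool.Agent.Y720.MZ

namespace Pool.Agent.Y165.CL

theorem ufd : Pool.Agent.Y718.CL.S_UFD := by
  intro F A _ _ _ _ _ _ a b c B T u k hB hBT hk
  obtain ⟨B', T', g, hrel, hgB, hgT⟩ := UniqueFactorizationMonoid.exists_reduced_factors B hB T
  have hg : g ≠ 0 := by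
    rintro rfl
    rw [zero_mul] at hgB
    exact hB hgB.symm
  have hB' : B' ≠ 0 := by
    rintro rfl
    rw [mul_zero] at hgB
    exact hB hgB.symm
  have hBu : ¬ IsUnit B' := by
    intro h
    apply hBT
    rw [← hgB, ← hgT]
    exact mul_dvd_mul_left g h.dvd
  obtain ⟨π, hirr, hπB⟩ := WfDvdMonoid.exists_irreducible_factor hBu hB'
  have hπ : Prime π := UniqueFactorizationMonoid.irreducible_iff_prime.1 hirr
  have hπT : ¬ π ∣ T' := fun h => hπ.not_isUnit (hrel hπB h)
  set N : A := T' ^ 2 - B' ^ 2 * u with hN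
  set D : A := k * B' ^ 2 with hD
  have hπN : ¬ π ∣ N := by
    intro h
    apply hπT
    have h1 : π ∣ B' ^ 2 * u := (dvd_pow hπB two_ne_zero).mul_right u
    have h2 : π ∣ T' ^ 2 := by
      have := dvd_add h h1
      rwa [hN, sub_add_cancel] at this
    exact hπ.dvd_of_dvd_pow h2
  have hD0 : D ≠ 0 := mul_ne_zero hk.ne_zero (pow_ne_zero 2 hB')
  obtain ⟨j, E, hπE, hDE⟩ := WfDvdMonoid.max_power_factor hD0 hirr
  have hj : j ≠ 0 := by
    rintro rfl
    rw [pow_zero, one_mul] at hDE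
    apply hπE
    rw [← hDE, hD]
    exact (dvd_pow hπB two_ne_zero).mul_left k
  -- the residue field
  set I : Ideal A := Ideal.span {π} with hI
  have hIp : I.IsPrime := (Ideal.span_singleton_prime hπ.ne_zero).2 hπ
  set φ : A →+* FractionRing (A ⧸ I) :=
    (algebraMap (A ⧸ I) (FractionRing (A ⧸ I))).comp (Ideal.Quotient.mk I) with hφ
  have hφ0 : ∀ x, φ x = 0 ↔ π ∣ x := by
    intro x
    rw [hφ, RingHom.comp_apply, map_eq_zero_iff _ (IsFractionRing.injective (A ⧸ I) (FractionRing (A ⧸ I))),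
      hI, Ideal.Quotient.eq_zero_iff_dvd]
  have hchar : CharZero (FractionRing (A ⧸ I)) :=
    (RingHom.charZero_iff (ϕ := φ.comp (algebraMap F A)) (RingHom.injective _)).1 inferInstance
  have hφπ : φ (π ^ j) = 0 := by
    rw [map_pow, (hφ0 π).2 dvd_rfl, zero_pow hj]
  have hφN : φ N ≠ 0 := fun h => hπN ((hφ0 N).1 h)
  have hφE : φ E ≠ 0 := fun h => hπE ((hφ0 E).1 h)
  choose G hG1 hG2 using fun i : ℕ => itd_pole (a := a) (b := b) (c := c) (N := N) hDE i
  have hst := fun i => hG2 i φ hφπ hφN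
  have hG0 : ∀ i, φ (G i) ≠ 0 := by
    intro i h0
    have h1 := (hst i).2
    rw [h0, zero_mul] at h1
    exact mul_ne_zero (mul_ne_zero (pow_ne_zero i (by norm_num)) hφE) (hst i).1 h1.symm
  have hπj : π ^ j ≠ 0 := pow_ne_zero j hπ.ne_zero
  have hq2 : ∀ i, (itd a b c (N, D) i).2 ≠ 0 := by
    intro i h0
    rw [hG1 i] at h0
    have h2 := (mul_eq_zero.1 h0).resolve_left hπj
    exact hG0 i (by rw [h2, map_zero])
  refine ⟨N, D, g, hg, ?_, ?_, hq2, ?_⟩
  · rw [← hgB, ← hgT, hN]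
    ring
  · rw [← hgB, hD]
    ring
  · intro i l hil h0
    rw [hG1 i, hG1 l] at h0
    have h3 : π ^ j * ((itd a b c (N, D) i).1 * G l - (itd a b c (N, D) l).1 * G i) = 0 := by
      linear_combination h0
    have h4 := (mul_eq_zero.1 h3).resolve_left hπj
    have h5 := congrArg φ h4
    rw [map_sub, map_mul, map_mul, map_zero] at h5
    obtain ⟨n1, m1⟩ := hst i
    obtain ⟨n2, m2⟩ := hst l
    have h6 : (4 : FractionRing (A ⧸ I)) ^ i ≠ 4 ^ l := by
      intro h
      have h7 : ((4 ^ i : ℕ) : FractionRing (A ⧸ I)) = ((4 ^ l : ℕ) : FractionRing (A ⧸ I)) := by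
        push_cast
        exact h
      have h8 : (4 : ℕ) ^ i = 4 ^ l := Nat.cast_injective h7
      exact hil (Nat.pow_right_injective (le_refl 2 |>.trans (by norm_num)) h8)
    have h8 : (φ (itd a b c (N, D) i).1 * φ (itd a b c (N, D) l).1 * φ E) * (4 ^ l - 4 ^ i) = 0 := by
      linear_combination φ N * h5 - φ (itd a b c (N, D) i).1 * m2 + φ (itd a b c (N, D) l).1 * m1
    exact mul_ne_zero (mul_ne_zero (mul_ne_zero n1 n2) hφE) (sub_ne_zero.2 h6.symm) h8

end Pool.Agent.Y165.CL
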